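import Pool.Agent.H99.UGA.SecOf
import Pool.Agent.H77.UG.Hilb
import Pool.Agent.H33.UG.A1

/-!
# SEC from `GP ≤ GG`
-/

set_option autoImplicit false

open MvPolynomial

namespace Pool.Agent.H47.UG.FF

variable {K : Type} [Field K] [CharZero K] {n d : ℕ} {F : HP K n} (T : FF d F) (hF : Nice d F)

include hF

/-- **SEC** from `GP ≤ GG`. -/
theorem sections_gp (hd : 2 ≤ d) (k p m q s : ℕ) (e : ℤ) (h : (s : ℤ) + 2 * q ≤ e + p * ((d : ℤ) - n - 2))
    (hGP : ∀ i, T.GP k p e m q i ≤ T.GG k e m q i) :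
    ∃ S : Submodule K T.BB, S ≤ H0 (T.GG k e m q) ∧ FiniteDimensional K S ∧
      Module.finrank K S = Module.finrank K (IP K n k p m q) * hyp n d s :=
  T.sections_of k p m q s e h (T.fd_ne hF hd _) hGP
    (finrank_quot s F hF.irr.ne_zero hF.hom (by omega))

end Pool.Agent.H47.UG.FF
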