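import Pool.Agent.H47.UG.Ch

/-!
# SEC: sections of the graded pieces from the powers of the ideal of maximal minors
-/

set_option autoImplicit false

open MvPolynomial

namespace Pool.Agent.H47.UG

/-- `IP` is finite dimensional. -/
theorem sec_IP_fin {K : Type} [Field K] (n k p m q : ℕ) : FiniteDimensional K (IP K n k p m q) := by
  unfold IP
  apply FiniteDimensional.span_of_finite
  have h : {v : MvPolynomial (ℕ × Fin n) K | ∃ (c : Fin p → Fin n → Fin k) (q' : ℕ) (s : Fin q' → Fin k)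
      (l : Fin q' → Fin n), q' + p * n = q ∧ ∑ r, ((s r : ℕ) + 1) + ∑ r, ∑ t, ((c r t : ℕ) + 1) = m ∧
      v = (∏ r, Matrix.det (Matrix.of fun l t : Fin n => (X ((c r t : ℕ), l) : MvPolynomial (ℕ × Fin n) K))) *
      ∏ r, X ((s r : ℕ), l r)} ⊆
      Set.range fun z : (Fin p → Fin n → Fin k) × (Σ q' : Fin (q + 1), (Fin q' → Fin k) × (Fin q' → Fin n)) =>
        (∏ r, Matrix.det (Matrix.of fun l t : Fin n => (X ((z.1 r t : ℕ), l) : MvPolynomial (ℕ × Fin n) K))) *
          ∏ r, X ((z.2.2.1 r : ℕ), z.2.2.2 r) := by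
    rintro v ⟨c, q', s, l, h1, -, rfl⟩
    exact ⟨⟨c, ⟨⟨q', by omega⟩, s, l⟩⟩, rfl⟩
  exact (Set.finite_range _).subset h

namespace FF

variable {K : Type} [Field K] {n d : ℕ} {F : HP K n} (T : FF d F)

/-- A derivation-like rule for the symbols: `δ_s (v w) = v δ_s w + w δ_s v`. -/
theorem sec_δ_mul (s : ℕ) (v w : T.L) : T.δ s (v * w) = C v * T.δ s w + C w * T.δ s v := by
  unfold δ
  simp only [Derivation.leibniz, smul_eq_mul, map_add, map_mul, add_mul, Finset.sum_add_distrib, Finset.mul_sum,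
    mul_assoc]

/-- The jet coordinates are symbols. -/
theorem sec_δ_x (s : ℕ) (l : Fin n) : T.δ s (T.x l.succ.castSucc) = X (s, l) := by
  unfold δ
  rw [Finset.sum_eq_single l]
  · rw [T.par_x, if_pos rfl, map_one, one_mul]
  · intro l' _ hl
    rw [T.par_x, if_neg hl, map_zero, zero_mul]
  · intro h
    exact absurd (Finset.mem_univ l) h

/-- The jet coordinates in the chart `i`: `X(s,l) = x_i² ((x_0/x_i) δ_s(x_l/x_i) - (x_l/x_i) δ_s(x_0/x_i))`. -/
theorem sec_X_eq (i : Fin (n + 2)) (s : ℕ) (l : Fin n) : (X (s, l) : T.BB) =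
    C (T.x i ^ 2) * (C (T.x 0 / T.x i) * T.δ s (T.x l.succ.castSucc / T.x i) -
      C (T.x l.succ.castSucc / T.x i) * T.δ s (T.x 0 / T.x i)) := by
  have hi := T.x_ne i
  have h1 := T.sec_δ_mul s (T.x l.succ.castSucc / T.x i) (T.x i)
  have h2 := T.sec_δ_mul s (T.x 0 / T.x i) (T.x i)
  rw [div_mul_cancel₀ _ hi] at h1 h2
  have h0 : T.δ s (T.x 0) = 0 := by
    unfold δ
    rw [T.x_zero]
    simp
  rw [h0] at h2
  rw [T.sec_δ_x] at h1
  have h3 : (C (T.x i ^ 2) * (C (T.x 0 / T.x i)) : T.BB) = C (T.x i) * C (T.x 0) := by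
    rw [← C_mul, ← C_mul]
    congr 1
    field_simp
  have h4 : (C (T.x i ^ 2) * C (T.x l.succ.castSucc / T.x i) : T.BB) = C (T.x i) * C (T.x l.succ.castSucc) := by
    rw [← C_mul, ← C_mul]
    congr 1
    field_simp
  have h5 : (C (T.x l.succ.castSucc / T.x i) * C (T.x i) : T.BB) = C (T.x l.succ.castSucc) := by
    rw [← C_mul, div_mul_cancel₀ _ hi]
  have h6 : (C (T.x 0 / T.x i) * C (T.x i) : T.BB) = C (T.x 0) := by
    rw [← C_mul, div_mul_cancel₀ _ hi]
  have h7 : (C (T.x 0) : T.BB) = 1 := by rw [T.x_zero, map_one]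
  rw [mul_sub, ← mul_assoc, ← mul_assoc, h3, h4]
  rw [h7] at h6 ⊢
  rw [h1]
  -- `x_i δ(x_l/x_i) + (x_l / x_i) δ x_i = δ x_l`, `x_i δ(1/x_i) = - (1/x_i) δ x_i`
  have h8 : (C (T.x i) * T.δ s (T.x 0 / T.x i) : T.BB) = - (C (T.x 0 / T.x i) * T.δ s (T.x i)) := by
    linear_combination -h2
  have h9 : (C (T.x i) * C (T.x l.succ.castSucc) * T.δ s (T.x 0 / T.x i) : T.BB) =
      - (C (T.x l.succ.castSucc / T.x i) * T.δ s (T.x i)) := by
    have h10 : (C (T.x l.succ.castSucc) * C (T.x 0 / T.x i) : T.BB) = C (T.x l.succ.castSucc / T.x i) := by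
      rw [← C_mul, T.x_zero]
      congr 1
      ring
    calc (C (T.x i) * C (T.x l.succ.castSucc) * T.δ s (T.x 0 / T.x i) : T.BB)
        = C (T.x l.succ.castSucc) * (C (T.x i) * T.δ s (T.x 0 / T.x i)) := by ring
      _ = C (T.x l.succ.castSucc) * (- (C (T.x 0 / T.x i) * T.δ s (T.x i))) := by rw [h8]
      _ = - ((C (T.x l.succ.castSucc) * C (T.x 0 / T.x i)) * T.δ s (T.x i)) := by ring
      _ = _ := by rw [h10]
  rw [h9]
  ring

/-- Homogeneity: `P(x / x_i) x_i^s = P(x)`. -/
theorem sec_aeval_div {s : ℕ} {P : HP K n} (hP : P.IsHomogeneous s) (i : Fin (n + 2)) :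
    aeval (fun j => T.x j / T.x i) P * T.x i ^ s = aeval T.x P := by
  have hi := T.x_ne i
  rw [aeval_def, aeval_def, eval₂_eq', eval₂_eq', Finset.sum_mul]
  refine Finset.sum_congr rfl fun a ha => ?_
  have h1 : ∑ j, a j = s := by
    have := hP (mem_support_iff.1 ha)
    rw [Finsupp.weight_apply, Finsupp.sum_fintype _ _ (fun _ => by simp)] at this
    simpa using this
  simp only [div_pow]
  rw [Finset.prod_div_distrib, Finset.prod_pow_eq_pow_sum, h1, mul_assoc, div_mul_cancel₀ _ (pow_ne_zero _ hi)]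

theorem sec_div_mem (i j : Fin (n + 2)) : T.x j / T.x i ∈ T.A i := Algebra.subset_adjoin ⟨j, rfl⟩

theorem sec_aeval_mem (i : Fin (n + 2)) (P : HP K n) : aeval (fun j => T.x j / T.x i) P ∈ T.A i := by
  induction P using MvPolynomial.induction_on with
  | C a =>
    rw [aeval_C]
    exact Subalgebra.algebraMap_mem _ _
  | add P Q hP hQ =>
    rw [map_add]
    exact add_mem hP hQ
  | mul_X P j hP =>
    rw [map_mul, aeval_X]
    exact mul_mem hP (T.sec_div_mem i j)

/-- Monomials in the jet coordinates, with enough twist, are sections of `GG`. -/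
theorem sec_mon {s k q' : ℕ} {E : ℤ} (hE : (s : ℤ) + 2 * q' ≤ E) {P : HP K n} (hP : P.IsHomogeneous s)
    (i : Fin (n + 2)) (c : Fin q' → Fin k) (l : Fin q' → Fin n) :
    C (aeval T.x P) * ∏ r, (X ((c r : ℕ), l r) : T.BB) ∈ T.GG k E (∑ r, ((c r : ℕ) + 1)) q' i := by
  have hi := T.x_ne i
  set α : Fin q' → Bool → T.L := fun r ε => if ε then T.x 0 / T.x i else - (T.x (l r).succ.castSucc / T.x i) with hα
  set lam : Fin q' → Bool → Fin (n + 2) := fun r ε => if ε then (l r).succ.castSucc else 0 with hlam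
  have h1 : ∀ r : Fin q', (X ((c r : ℕ), l r) : T.BB) =
      ∑ ε : Bool, C (T.x i ^ 2 * α r ε) * T.δ (c r) (T.x (lam r ε) / T.x i) := by
    intro r
    rw [T.sec_X_eq i, Fintype.sum_bool]
    simp only [hα, hlam, if_true, if_false, Bool.false_eq_true]
    rw [mul_neg, map_neg, C_mul, C_mul]
    ring
  have h2 : ∏ r, (X ((c r : ℕ), l r) : T.BB) = ∑ f ∈ Fintype.piFinset fun _ : Fin q' => (Finset.univ : Finset Bool),
      ∏ r, (C (T.x i ^ 2 * α r (f r)) * T.δ (c r) (T.x (lam r (f r)) / T.x i)) := by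
    rw [Finset.prod_congr rfl fun r _ => h1 r, Finset.prod_univ_sum]
  rw [h2, Finset.mul_sum]
  refine Submodule.sum_mem _ fun f _ => Submodule.subset_span ?_
  obtain ⟨t, ht⟩ : ∃ t : ℕ, (s : ℤ) + 2 * q' + t = E := ⟨(E - (s + 2 * q')).toNat, by omega⟩
  refine ⟨(T.x 0 / T.x i) ^ t * (aeval (fun j => T.x j / T.x i) P * ∏ r, α r (f r)), ?_, c,
    fun r => lam r (f r), rfl, ?_⟩
  · refine mul_mem (pow_mem (T.sec_div_mem i 0) t) (mul_mem (T.sec_aeval_mem i P) (prod_mem fun r _ => ?_))
    simp only [hα]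
    split_ifs
    · exact T.sec_div_mem i 0
    · exact neg_mem (T.sec_div_mem i _)
  · rw [Finset.prod_mul_distrib, ← map_prod, ← mul_assoc, ← C_mul]
    congr 2
    rw [Finset.prod_mul_distrib, Finset.prod_const, Finset.card_univ, Fintype.card_fin,
      ← T.sec_aeval_div hP i, ← ht, zpow_add₀ hi, zpow_add₀ hi, T.x_zero]
    have e1 : T.x i ^ (2 * (q' : ℤ)) = (T.x i ^ 2) ^ q' := by
      rw [zpow_mul, zpow_natCast]
      norm_cast
    rw [e1, zpow_natCast, zpow_natCast, one_div, inv_pow]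
    field_simp

/-- The section of `GP` given by a form and an element of `IP`. -/
theorem sec_GP {s k p m q : ℕ} {e : ℤ} (h : (s : ℤ) + 2 * q ≤ e + p * ((d : ℤ) - n - 2)) {P : HP K n}
    (hP : P.IsHomogeneous s) {g : MvPolynomial (ℕ × Fin n) K} (hg : g ∈ IP K n k p m q) (i : Fin (n + 2)) :
    C (aeval T.x P * ((T.fd (Fin.last (n + 1)))⁻¹) ^ p) * map (algebraMap K T.L) g ∈ T.GP k p e m q i := by
  induction hg using Submodule.span_induction with
  | mem v hv =>
    obtain ⟨c, q', s', l, hq, hm, rfl⟩ := hv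
    refine Submodule.subset_span ⟨c, ∑ r, ((s' r : ℕ) + 1), q',
      C (aeval T.x P) * ∏ r, X ((s' r : ℕ), l r), ?_, hq, hm, ?_⟩
    · refine T.sec_mon ?_ hP i s' l
      have : (q' : ℤ) ≤ q := by
        have h1 : q' ≤ q := by omega
        exact_mod_cast h1
      linarith
    · have h1 : ∀ r, T.ρ (c r) = C ((T.fd (Fin.last (n + 1)))⁻¹) *
          map (algebraMap K T.L) (Matrix.det (Matrix.of fun l t : Fin n =>
            (X ((c r t : ℕ), l) : MvPolynomial (ℕ × Fin n) K))) := by
        intro r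
        unfold ρ
        congr 1
        rw [RingHom.map_det]
        congr 1
        ext a b : 2
        simp
      rw [Finset.prod_congr rfl fun r _ => h1 r, Finset.prod_mul_distrib, Finset.prod_const, Finset.card_univ,
        Fintype.card_fin]
      simp only [map_mul, map_prod, map_pow, map_X]
      ring
  | zero => simp
  | add v w _ _ hv hw =>
    rw [map_add, mul_add]
    exact add_mem hv hw
  | smul a v _ hv =>
    have h1 : C (aeval T.x P * ((T.fd (Fin.last (n + 1)))⁻¹) ^ p) * map (algebraMap K T.L) (a • v) =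
        a • (C (aeval T.x P * ((T.fd (Fin.last (n + 1)))⁻¹) ^ p) * map (algebraMap K T.L) v) := by
      rw [smul_eq_C_mul, Algebra.smul_def, MvPolynomial.algebraMap_apply]
      simp only [map_mul, map_pow, map_C]
      ring
    rw [h1]
    exact Submodule.smul_mem _ a hv

/-- Linear independence of products. -/
theorem sec_indep {ι κ : Type} [Fintype ι] [Fintype κ] {b : ι → T.L} (hb : LinearIndependent K b)
    {g : κ → MvPolynomial (ℕ × Fin n) K} (hg : LinearIndependent K g) :
    LinearIndependent K fun z : ι × κ => (C (b z.1) * map (algebraMap K T.L) (g z.2) : T.BB) := by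
  rw [Fintype.linearIndependent_iff]
  intro c hc
  have h1 : ∀ i, ∑ j, c (i, j) • g j = 0 := by
    intro i
    ext a
    have h2 : ∑ i, (∑ j, c (i, j) * coeff a (g j)) • b i = 0 := by
      have h3 := congrArg (coeff a) hc
      rw [coeff_sum, coeff_zero, Fintype.sum_prod_type] at h3
      rw [← h3]
      refine Finset.sum_congr rfl fun i _ => ?_
      rw [Finset.sum_smul]
      refine Finset.sum_congr rfl fun j _ => ?_
      rw [coeff_smul, coeff_C_mul, coeff_map, Algebra.smul_def, Algebra.smul_def, map_mul]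
      ring
    have h4 := Fintype.linearIndependent_iff.1 hb _ h2 i
    simpa [coeff_sum] using h4
  intro z
  exact Fintype.linearIndependent_iff.1 hg _ (h1 z.1) z.2

/-- **SEC** from its inputs. -/
theorem sections_of (k p m q s : ℕ) (e : ℤ) (h : (s : ℤ) + 2 * q ≤ e + p * ((d : ℤ) - n - 2))
    (hf : T.fd (Fin.last (n + 1)) ≠ 0)
    (hGP : ∀ i, T.GP k p e m q i ≤ T.GG k e m q i)
    (hH : Module.finrank K (homogeneousSubmodule (Fin (n + 2)) K s ⧸ mult F s) = hyp n d s) :
    ∃ S : Submodule K T.BB, S ≤ H0 (T.GG k e m q) ∧ FiniteDimensional K S ∧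
      Module.finrank K S = Module.finrank K (IP K n k p m q) * hyp n d s := by
  classical
  have := sec_IP_fin (K := K) n k p m q
  -- the forms of degree `s` modulo `F` as a subspace of `L`
  set ev : homogeneousSubmodule (Fin (n + 2)) K s →ₗ[K] T.L :=
    (aeval T.x : HP K n →ₐ[K] T.L).toLinearMap ∘ₗ (homogeneousSubmodule (Fin (n + 2)) K s).subtype with hev
  have hker : LinearMap.ker ev = mult F s := by
    ext P
    rw [LinearMap.mem_ker]
    unfold mult
    rw [Submodule.mem_comap, Submodule.restrictScalars_mem, Ideal.mem_span_singleton]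
    exact T.ker s P.1 ((mem_homogeneousSubmodule s P.1).1 P.2)
  have : FiniteDimensional K (homogeneousSubmodule (Fin (n + 2)) K s) :=
    Module.Finite.iff_fg.2 (homogeneousSubmodule_fg (Fin (n + 2)) K s)
  have hrank : Module.finrank K (LinearMap.range ev) = hyp n d s := by
    rw [← hH, ← hker]
    exact (LinearEquiv.finrank_eq ev.quotKerEquivRange).symm
  set f := T.fd (Fin.last (n + 1)) with hf'
  set b := Module.finBasis K (LinearMap.range ev) with hb
  set g := Module.finBasis K (IP K n k p m q) with hg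
  have hfp : (f⁻¹) ^ p ≠ 0 := pow_ne_zero _ (inv_ne_zero hf)
  have hb1 : LinearIndependent K fun i => (b i : T.L) * (f⁻¹) ^ p := by
    have h1 : LinearIndependent K fun i => (b i : T.L) :=
      b.linearIndependent.map' (LinearMap.range ev).subtype (Submodule.ker_subtype _)
    have h2 : LinearMap.ker (LinearMap.mulRight K ((f⁻¹) ^ p)) = ⊥ := by
      rw [LinearMap.ker_eq_bot]
      intro x y hxy
      exact mul_right_cancel₀ hfp hxy
    exact h1.map' _ h2
  have hg1 : LinearIndependent K fun j => (g j : MvPolynomial (ℕ × Fin n) K) :=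
    g.linearIndependent.map' (IP K n k p m q).subtype (Submodule.ker_subtype _)
  have hind := T.sec_indep hb1 hg1
  refine ⟨Submodule.span K (Set.range fun z : Fin (Module.finrank K (LinearMap.range ev)) ×
      Fin (Module.finrank K (IP K n k p m q)) => (C ((b z.1 : T.L) * (f⁻¹) ^ p) *
        map (algebraMap K T.L) (g z.2 : MvPolynomial (ℕ × Fin n) K) : T.BB)), ?_, ?_, ?_⟩
  · rw [Submodule.span_le]
    rintro _ ⟨z, rfl⟩
    obtain ⟨P, hP⟩ := (b z.1).2
    have hP' : aeval T.x P.1 = (b z.1 : T.L) := hP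
    refine (Submodule.mem_iInf _).2 fun i => hGP i ?_
    simp only
    rw [← hP']
    exact T.sec_GP h ((mem_homogeneousSubmodule s P.1).1 P.2) (g z.2).2 i
  · exact FiniteDimensional.span_of_finite _ (Set.finite_range _)
  · rw [finrank_span_eq_card hind, Fintype.card_prod, Fintype.card_fin, Fintype.card_fin, hrank, mul_comm]

end FF

end Pool.Agent.H47.UG
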